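import Pool.Agent.H10.RIC.Stmts

/-!
# Row POW: power products up to coefficients of small radical
-/

set_option autoImplicit false

namespace Pool.RIC.POW

open Finset Pool.Agent.H98.ABCR Pool.SHA

/-- the vectors with the entry `1` at `i` and the other entries in `T` -/
def vec (T : Finset ℕ) (i : Fin 3) : Finset (Fin 3 → ℕ) :=
  (T ×ˢ T).image fun w => fun j => if j = i then 1 else if j = i + 1 then w.1 else w.2

theorem mem_vec {T : Finset ℕ} {i : Fin 3} {α : Fin 3 → ℕ} (h1 : α i = 1) (h2 : ∀ j, α j ∈ T) :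
    α ∈ vec T i := by
  rw [vec, mem_image]
  refine ⟨(α (i + 1), α (i + 2)), mem_product.2 ⟨h2 _, h2 _⟩, ?_⟩
  funext j
  fin_cases i <;> fin_cases j <;> simp_all [Fin.ext_iff]

theorem card_vec (T : Finset ℕ) (S : Finset (Fin 3 → ℕ))
    (h : ∀ α ∈ S, (∃ i, α i = 1) ∧ ∀ j, α j ∈ T) : S.card ≤ 3 * T.card ^ 2 := by
  have h1 : S ⊆ univ.biUnion fun i => vec T i := by
    intro α hα
    obtain ⟨⟨i, hi⟩, h2⟩ := h α hα
    rw [mem_biUnion]
    exact ⟨i, mem_univ _, mem_vec hi h2⟩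
  refine (card_le_card h1).trans (card_biUnion_le.trans ?_)
  have h2 : ∀ i : Fin 3, (vec T i).card ≤ T.card ^ 2 := fun i => by
    refine card_image_le.trans ?_
    rw [card_product, sq]
  calc ∑ i : Fin 3, (vec T i).card ≤ ∑ _i : Fin 3, T.card ^ 2 := sum_le_sum fun i _ => h2 i
    _ = 3 * T.card ^ 2 := by simp

theorem rad_one : rad 1 = 1 := by simp [rad]

theorem coord_pos {v : ℕ × ℕ} (h : IsTri v) (i : Fin 3) : 0 < coord v i := by
  obtain ⟨h1, h2, -⟩ := h
  fin_cases i <;> simp [coord] <;> omega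

theorem coord_le (v : ℕ × ℕ) (i : Fin 3) : coord v i ≤ v.1 + v.2 := by
  fin_cases i <;> simp [coord]

theorem powprod_one (N : ℕ) {X : ℝ} (hX : 1 ≤ X) : Pool.PW.PowProd N X 1 :=
  ⟨fun _ => 1, fun _ => 0, fun _ => ⟨le_rfl, by simpa using hX⟩, by simp⟩

end Pool.RIC.POW

namespace Pool.RIC

open Finset Pool.Agent.H98.ABCR Pool.SHA POW

theorem pow_thm (h1 : Pool.PW.S_PWR) (h2 : S_CNT) : S_POW := by
  intro N A ε hA hε
  have hA0 : 0 < A := by linarith
  obtain ⟨K0, η, C0, hK0, hη, hC0, hPW⟩ := h1 N (ε / (2 * A)) (by positivity)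
  refine ⟨A * K0, by nlinarith, fun κ hκ => ?_⟩
  have hκ0 : 0 < κ := by linarith
  obtain ⟨C1, hC1, hCN⟩ := h2 κ (ε / 4) hκ0 (by positivity)
  set s := A * η / 2 with hs
  have hs0 : 0 < s := by positivity
  refine ⟨(κ / s) ^ (2 * κ / s) + 3 * C0 * C1 ^ 2, ?_, ?_⟩
  · have h3 : 0 ≤ (κ / s) ^ (2 * κ / s) := by positivity
    have h4 : (1 : ℝ) ≤ C1 ^ 2 := by nlinarith
    nlinarith
  intro X Y F hX hY hF
  have hX0 : 0 < X := by linarith
  have hY0 : 0 < Y := by linarith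
  have hXε : 1 ≤ X ^ ε := Real.one_le_rpow hX hε.le
  have hY2 : 1 ≤ Y ^ 2 := by nlinarith
  have hB0 : 0 ≤ (κ / s) ^ (2 * κ / s) := by positivity
  have hD0 : 0 ≤ 3 * C0 * C1 ^ 2 := by positivity
  -- the height
  have hht : ∀ v ∈ F, ((v.1 + v.2 : ℕ) : ℝ) ≤ X ^ κ := by
    intro v hv
    obtain ⟨ht, -, h3, -⟩ := hF v hv
    have h4 : (0 : ℝ) < ((v.1 + v.2 : ℕ) : ℝ) := by
      have := ht.1
      exact_mod_cast (by omega : 0 < v.1 + v.2)
    rw [Real.rpow_def_of_pos hX0, ← Real.exp_log h4]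
    refine Real.exp_le_exp.2 ?_
    rw [mul_comm]; exact h3
  by_cases hbig : κ / s ≤ X ^ s
  · -- the main case
    have hlog : κ * Real.log X ≤ (X ^ A) ^ η := by
      have h3 : Real.log X ≤ X ^ s / s := Real.log_le_rpow_div hX0.le hs0
      have h4 : (X ^ A) ^ η = X ^ s * X ^ s := by
        rw [← Real.rpow_mul hX0.le, ← Real.rpow_add hX0]
        congr 1; rw [hs]; ring
      have h5 : 0 < X ^ s := by positivity
      calc κ * Real.log X ≤ κ * (X ^ s / s) := by gcongr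
        _ = (κ / s) * X ^ s := by ring
        _ ≤ X ^ s * X ^ s := by gcongr
        _ = _ := h4.symm
    have hXA : 1 ≤ X ^ A := Real.one_le_rpow hX hA0.le
    -- the coefficients
    have hcoef : ∀ v ∈ F, ∃ α : Fin 3 → ℕ, (∃ i, α i = 1) ∧ (∀ j, 0 < α j ∧
        (α j : ℝ) ≤ X ^ κ ∧ (rad (α j) : ℝ) ≤ Y) ∧
        ∀ j, ∃ b, Pool.PW.PowProd N (X ^ A) b ∧ coord v j = α j * b := by
      intro v hv
      obtain ⟨ht, -, -, ⟨i, hi⟩, h5⟩ := hF v hv
      have h6 : ∀ j, ∃ a : ℕ, (0 < a ∧ (a : ℝ) ≤ X ^ κ ∧ (rad a : ℝ) ≤ Y) ∧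
          (∃ b, Pool.PW.PowProd N (X ^ A) b ∧ coord v j = a * b) ∧ (j = i → a = 1) := by
        intro j
        have hone : (0 < 1 ∧ ((1 : ℕ) : ℝ) ≤ X ^ κ ∧ (rad 1 : ℝ) ≤ Y) := by
          refine ⟨one_pos, ?_, ?_⟩
          · rw [Nat.cast_one]; exact Real.one_le_rpow hX hκ0.le
          · rw [rad_one, Nat.cast_one]; exact hY
        by_cases hji : j = i
        · refine ⟨1, hone, ⟨coord v j, by rw [hji]; exact hi, by rw [one_mul]⟩, fun _ => rfl⟩
        · rcases h5 j with h | ⟨a, b, hab, hra, hb⟩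
          · exact ⟨1, hone, ⟨coord v j, h, by rw [one_mul]⟩, fun _ => rfl⟩
          · have hpos := coord_pos ht j
            have ha : 0 < a := by
              rcases Nat.eq_zero_or_pos a with h | h
              · rw [hab, h, zero_mul] at hpos; omega
              · exact h
            have hbp : 0 < b := by
              rcases Nat.eq_zero_or_pos b with h | h
              · rw [hab, h, mul_zero] at hpos; omega
              · exact h
            refine ⟨a, ⟨ha, ?_, hra⟩, ⟨b, hb, hab⟩, fun h => absurd h hji⟩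
            refine le_trans ?_ (hht v hv)
            have h7 : a ≤ v.1 + v.2 := by
              refine le_trans ?_ (coord_le v j)
              rw [hab]; exact Nat.le_mul_of_pos_right a hbp
            exact_mod_cast h7
      choose α hα using h6
      exact ⟨α, ⟨i, (hα i).2.2 rfl⟩, fun j => (hα j).1, fun j => (hα j).2.1⟩
    classical
    choose! α hα1 hα2 hα3 using hcoef
    set T : Finset ℕ := (Icc 1 ⌊X ^ κ⌋₊).filter (fun n => (rad n : ℝ) ≤ Y) with hT
    have hTc : (T.card : ℝ) ≤ C1 * X ^ (ε / 4) * Y := by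
      refine hCN X Y T hX hY fun n hn => ?_
      rw [hT, mem_filter, mem_Icc] at hn
      refine ⟨by omega, ?_, hn.2⟩
      exact (Nat.cast_le.2 hn.1.2).trans (Nat.floor_le (by positivity))
    have hS : ((F.image α).card : ℝ) ≤ 3 * (C1 * X ^ (ε / 4) * Y) ^ 2 := by
      have h3 : (F.image α).card ≤ 3 * T.card ^ 2 := by
        refine card_vec T _ fun a ha => ?_
        obtain ⟨v, hv, rfl⟩ := mem_image.1 ha
        refine ⟨hα1 v hv, fun j => ?_⟩
        obtain ⟨h4, h5, h6⟩ := hα2 v hv j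
        rw [hT, mem_filter, mem_Icc]
        exact ⟨⟨h4, Nat.le_floor h5⟩, h6⟩
      calc ((F.image α).card : ℝ) ≤ ((3 * T.card ^ 2 : ℕ) : ℝ) := by exact_mod_cast h3
        _ = 3 * (T.card : ℝ) ^ 2 := by push_cast; ring
        _ ≤ _ := by gcongr
    have hfib : ∀ a ∈ F.image α, ((F.filter (fun v => α v = a)).card : ℝ) ≤ C0 * X ^ (ε / 2) := by
      intro a _
      have h3 := hPW (X ^ A) a (F.filter (fun v => α v = a)) hXA fun v hv => by
        rw [mem_filter] at hv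
        obtain ⟨hv, hva⟩ := hv
        obtain ⟨ht, h4, h5, -, -⟩ := hF v hv
        have h6 : (0 : ℝ) < ((v.1 + v.2 : ℕ) : ℝ) := by
          have := ht.1
          exact_mod_cast (by omega : 0 < v.1 + v.2)
        refine ⟨ht, ?_, h5.trans hlog, fun j => ?_⟩
        · rw [← Real.rpow_mul hX0.le, Real.rpow_def_of_pos hX0]
          refine (Real.exp_le_exp.2 ?_).trans (Real.exp_log h6).le
          rw [mul_comm]
          exact h4
        · rw [← hva]; exact hα3 v hv j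
      refine h3.trans (le_of_eq ?_)
      rw [← Real.rpow_mul hX0.le]
      congr 2
      field_simp
    have hcard : (F.card : ℝ) ≤ ((F.image α).card : ℝ) * (C0 * X ^ (ε / 2)) := by
      have h3 := card_eq_sum_card_image α F
      have h4 : (F.card : ℝ) = ∑ a ∈ F.image α, ((F.filter (fun v => α v = a)).card : ℝ) := by
        exact_mod_cast h3
      rw [h4]
      refine (sum_le_sum hfib).trans ?_
      rw [sum_const, nsmul_eq_mul]
    have hX2 : X ^ ε = X ^ (ε / 4) ^ 1 * X ^ (ε / 4) * X ^ (ε / 2) := by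
      rw [pow_one, ← Real.rpow_add hX0, ← Real.rpow_add hX0]
      congr 1; ring
    calc (F.card : ℝ) ≤ ((F.image α).card : ℝ) * (C0 * X ^ (ε / 2)) := hcard
      _ ≤ (3 * (C1 * X ^ (ε / 4) * Y) ^ 2) * (C0 * X ^ (ε / 2)) := by gcongr
      _ = 3 * C0 * C1 ^ 2 * X ^ ε * Y ^ 2 := by rw [hX2]; ring_nf
      _ ≤ ((κ / s) ^ (2 * κ / s) + 3 * C0 * C1 ^ 2) * X ^ ε * Y ^ 2 := by
          gcongr
          linarith
  · -- small `X`
    push Not at hbig
    have h3 : F ⊆ (Icc 1 ⌊X ^ κ⌋₊) ×ˢ (Icc 1 ⌊X ^ κ⌋₊) := by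
      intro v hv
      have ht := (hF v hv).1
      have h4 := hht v hv
      have h5 : v.1 + v.2 ≤ ⌊X ^ κ⌋₊ := Nat.le_floor h4
      have h6 := ht.1
      have h7 := ht.2.1
      rw [mem_product, mem_Icc, mem_Icc]
      omega
    have h4 : (F.card : ℝ) ≤ (X ^ κ) ^ 2 := by
      have h5 := card_le_card h3
      rw [card_product, Nat.card_Icc, Nat.add_sub_cancel] at h5
      calc (F.card : ℝ) ≤ ((⌊X ^ κ⌋₊ * ⌊X ^ κ⌋₊ : ℕ) : ℝ) := by exact_mod_cast h5
        _ = (⌊X ^ κ⌋₊ : ℝ) ^ 2 := by push_cast; ring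
        _ ≤ (X ^ κ) ^ 2 := by
            gcongr
            exact Nat.floor_le (by positivity)
    have h5 : (X ^ κ) ^ 2 = (X ^ s) ^ (2 * κ / s) := by
      rw [← Real.rpow_mul hX0.le, ← Real.rpow_natCast, ← Real.rpow_mul hX0.le]
      congr 1
      push_cast
      field_simp
    have h6 : (X ^ s) ^ (2 * κ / s) ≤ (κ / s) ^ (2 * κ / s) :=
      Real.rpow_le_rpow (by positivity) hbig.le (by positivity)
    calc (F.card : ℝ) ≤ (κ / s) ^ (2 * κ / s) := by rw [h5] at h4; exact h4.trans h6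
      _ ≤ (κ / s) ^ (2 * κ / s) + 3 * C0 * C1 ^ 2 := by linarith
      _ = ((κ / s) ^ (2 * κ / s) + 3 * C0 * C1 ^ 2) * 1 * 1 := by ring
      _ ≤ ((κ / s) ^ (2 * κ / s) + 3 * C0 * C1 ^ 2) * X ^ ε * Y ^ 2 := by gcongr

end Pool.RIC
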